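import Pool.Agent.K3h22.EX.Stm2
import Pool.Agent.K3h33.EX.Avoid

/-! EX project (helper22), brick BAIRE: Baire's theorem on the manifold `Re Φ = 0`. -/

set_option autoImplicit false

namespace Pool.Agent.K3h87.EX

open MvPolynomial Filter Topology Metric Set
open Pool.Agent.K3h22.EX
open Pool.Agent.K3h33.EX

lemma baire_step {X : Type*} [TopologicalSpace X] [BaireSpace X] {ι : Type*} [Countable ι]
    (O : Set X) (hO : IsOpen O) (hne : O.Nonempty) (φ : ι → X → ℝ)
    (hφ : ∀ i, ContinuousOn (φ i) O) (hcov : ∀ t ∈ O, ∃ i, φ i t = 0) :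
    ∃ i, ∃ O' : Set X, IsOpen O' ∧ O'.Nonempty ∧ O' ⊆ O ∧ ∀ t ∈ O', φ i t = 0 := by
  classical
  let f : Option ι → Set X := fun i => i.elim Oᶜ fun i => closure {t | t ∈ O ∧ φ i t = 0}
  have hc : ∀ i, IsClosed (f i) := by
    intro i
    cases i with
    | none => exact hO.isClosed_compl
    | some i => exact isClosed_closure
  have hU : ⋃ i, f i = univ := by
    rw [eq_univ_iff_forall]
    intro t
    by_cases ht : t ∈ O
    · obtain ⟨i, hi⟩ := hcov t ht
      exact mem_iUnion.2 ⟨some i, subset_closure ⟨ht, hi⟩⟩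
    · exact mem_iUnion.2 ⟨none, ht⟩
  have hd := dense_iUnion_interior_of_closed hc hU
  obtain ⟨t, htO, ht⟩ := hd.inter_open_nonempty O hO hne
  obtain ⟨i, hi⟩ := mem_iUnion.1 ht
  cases i with
  | none => exact absurd htO (interior_subset hi)
  | some i =>
    refine ⟨i, O ∩ interior (f (some i)), hO.inter isOpen_interior, ⟨t, htO, hi⟩,
      inter_subset_left, ?_⟩
    rintro u ⟨huO, hu⟩
    have hu' : u ∈ closure {t | t ∈ O ∧ φ i t = 0} := interior_subset hu
    have hcont : ContinuousAt (φ i) u := (hφ i).continuousAt (hO.mem_nhds huO)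
    by_contra hne'
    have h1 : ∀ᶠ x in 𝓝 u, φ i x ≠ 0 := hcont.eventually_ne hne'
    rw [mem_closure_iff_frequently] at hu'
    obtain ⟨x, hx1, hx2⟩ := (hu'.and_eventually h1).exists
    exact hx2 hx1.2

lemma equiv_jac {s : ℕ} (Φ : Fin s → MvPolynomial (Fin s) ℂ) (z : Fin s → ℂ)
    (hdz : (jac Φ z).det ≠ 0) :
    ∃ e : (Fin s → ℂ) ≃L[ℂ] (Fin s → ℂ), (∀ v, e v = (jac Φ z).mulVec v) ∧
      HasStrictFDerivAt (fun x : Fin s → ℂ => fun a => eval x (Φ a))
        (e : (Fin s → ℂ) →L[ℂ] (Fin s → ℂ)) z := by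
  have hmv : ∀ v, (ContinuousLinearMap.pi fun a => dif (Φ a) z) v = (jac Φ z).mulVec v := by
    intro v
    ext a
    simp [jac, Matrix.mulVec, dotProduct, dif_apply]
  have hinj : Function.Injective (ContinuousLinearMap.pi fun a => dif (Φ a) z) := by
    rw [injective_iff_map_eq_zero]
    intro v hvz
    rw [hmv] at hvz
    exact Matrix.eq_zero_of_mulVec_eq_zero hdz hvz
  let e0 : (Fin s → ℂ) ≃ₗ[ℂ] (Fin s → ℂ) :=
    LinearEquiv.ofInjectiveEndo
      ((ContinuousLinearMap.pi fun a => dif (Φ a) z : (Fin s → ℂ) →L[ℂ] (Fin s → ℂ)) :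
        (Fin s → ℂ) →ₗ[ℂ] (Fin s → ℂ)) hinj
  let e : (Fin s → ℂ) ≃L[ℂ] (Fin s → ℂ) := e0.toContinuousLinearEquiv
  have he : (e : (Fin s → ℂ) →L[ℂ] (Fin s → ℂ)) =
      ContinuousLinearMap.pi fun a => dif (Φ a) z := by
    ext v a
    rfl
  refine ⟨e, ?_, ?_⟩
  · intro v
    rw [← hmv v, ← he]
    rfl
  · rw [he, hasStrictFDerivAt_pi]
    intro a
    exact hasStrict_eval (Φ a) z

theorem t_BAIRE : S_BAIRE := by
  classical
  intro s Φ ζ hre hdet g ω hω
  obtain ⟨e₀, -, hF₀⟩ := equiv_jac Φ ζ hdet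
  set F : (Fin s → ℂ) → (Fin s → ℂ) := fun x => fun a => eval x (Φ a) with hF
  let H := hF₀.toOpenPartialHomeomorph F
  have hHF : ∀ x, H x = F x := fun x => by
    rw [hF₀.toOpenPartialHomeomorph_coe]
  have hζs : ζ ∈ H.source := hF₀.mem_toOpenPartialHomeomorph_source
  have hdcont : Continuous fun z => (jac Φ z).det := by
    apply Continuous.matrix_det
    unfold jac
    apply continuous_matrix
    intro a b
    simp only [Matrix.of_apply]
    exact MvPolynomial.continuous_eval _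
  have hUo : IsOpen {z : Fin s → ℂ | (jac Φ z).det ≠ 0} := isOpen_ne_fun hdcont continuous_const
  let T : Set (Fin s → ℂ) := H.target ∩ H.symm ⁻¹' {z : Fin s → ℂ | (jac Φ z).det ≠ 0}
  have hTo : IsOpen T := H.isOpen_inter_preimage_symm hUo
  let w₀ : Fin s → ℂ := F ζ
  have hw₀ : w₀ = H ζ := (hHF ζ).symm
  have hw₀T : w₀ ∈ T := by
    refine ⟨?_, ?_⟩
    · rw [hw₀]; exact H.map_source hζs
    · show (jac Φ (H.symm w₀)).det ≠ 0
      rw [hw₀, H.left_inv hζs]; exact hdet
  -- the parametrisation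
  let c : (Fin s → ℝ) → (Fin s → ℂ) := fun t => fun a => w₀ a + Complex.I * (t a : ℂ)
  have hcc : Continuous c := by fun_prop
  let γ : (Fin s → ℝ) → (Fin s → ℂ) := fun t => H.symm (c t)
  let O : Set (Fin s → ℝ) := c ⁻¹' T
  have hOo : IsOpen O := hTo.preimage hcc
  have hOne : O.Nonempty := ⟨0, by
    show c 0 ∈ T
    have : c 0 = w₀ := by ext a; simp [c]
    rw [this]; exact hw₀T⟩
  have hγc : ContinuousOn γ O := by
    apply ContinuousOn.comp H.continuousOn_symm hcc.continuousOn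
    intro t ht
    exact ht.1
  have hγre : ∀ t ∈ O, ∀ a, (eval (γ t) (Φ a)).re = 0 := by
    intro t ht a
    have h1 : F (γ t) = c t := by
      rw [← hHF]; exact H.right_inv ht.1
    have h2 := congrFun h1 a
    have h3 : eval (γ t) (Φ a) = c t a := h2
    rw [h3]
    have h4 : (w₀ a).re = 0 := hre a
    simp [c, h4]
  have hγdet : ∀ t ∈ O, (jac Φ (γ t)).det ≠ 0 := fun t ht => ht.2
  -- iteration
  have key : ∀ k : ℕ, ∃ (O' : Set (Fin s → ℝ)) (m : Fin g → Fin s → ℤ), IsOpen O' ∧ O'.Nonempty ∧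
      O' ⊆ O ∧ ∀ j : Fin g, (j : ℕ) < k → m j ≠ 0 ∧
        ∀ t ∈ O', (ω j * ∑ i, (m j i : ℂ) * γ t i).re = 0 := by
    intro k
    induction k with
    | zero => exact ⟨O, 0, hOo, hOne, Subset.rfl, fun j hj => absurd hj (Nat.not_lt_zero _)⟩
    | succ k ih =>
      obtain ⟨O', m, hO'o, hO'ne, hO'O, hm⟩ := ih
      by_cases hk : k < g
      · let j₀ : Fin g := ⟨k, hk⟩
        obtain ⟨m₀, O'', h1, h2, h3, h4⟩ := baire_step (ι := {m : Fin s → ℤ // m ≠ 0}) O' hO'o
          hO'ne (fun m t => (ω j₀ * ∑ i, (m.1 i : ℂ) * γ t i).re)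
          (by
            intro m
            apply Complex.continuous_re.comp_continuousOn
            apply ContinuousOn.mul continuousOn_const
            apply continuousOn_finsetSum
            intro i _
            apply ContinuousOn.mul continuousOn_const
            exact (continuous_apply i).comp_continuousOn (hγc.mono hO'O))
          (by
            intro t ht
            obtain ⟨m, hm0, hm1⟩ := hω (γ t) (hγre t (hO'O ht)) (hγdet t (hO'O ht)) j₀
            exact ⟨⟨m, hm0⟩, hm1⟩)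
        refine ⟨O'', Function.update m j₀ m₀.1, h1, h2, h3.trans hO'O, ?_⟩
        intro j hj
        by_cases hjk : j = j₀
        · subst hjk
          refine ⟨?_, ?_⟩
          · rw [Function.update_self]; exact m₀.2
          · intro t ht
            rw [Function.update_self]
            exact h4 t ht
        · rw [Function.update_of_ne hjk]
          have hj' : (j : ℕ) < k := by
            have : (j : ℕ) ≠ k := fun h => hjk (Fin.ext h)
            omega
          exact ⟨(hm j hj').1, fun t ht => (hm j hj').2 t (h3 ht)⟩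
      · refine ⟨O', m, hO'o, hO'ne, hO'O, ?_⟩
        intro j hj
        exact hm j (by have := j.2; omega)
  obtain ⟨O', m, hO'o, ⟨t₀, ht₀⟩, hO'O, hm⟩ := key g
  have ht₀O : t₀ ∈ O := hO'O ht₀
  obtain ⟨e, he, hFe⟩ := equiv_jac Φ (γ t₀) (hγdet t₀ ht₀O)
  have hsym : HasStrictFDerivAt H.symm (e.symm : (Fin s → ℂ) →L[ℂ] (Fin s → ℂ)) (c t₀) := by
    apply H.hasStrictFDerivAt_symm ht₀O.1
    have hcoe : (H : (Fin s → ℂ) → (Fin s → ℂ)) = F := hF₀.toOpenPartialHomeomorph_coe
    rw [hcoe]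
    exact hFe
  let A : Matrix (Fin s) (Fin s) ℂ := Matrix.of fun i j => e.symm (Pi.single j Complex.I) i
  refine ⟨A, m, ?_, fun k => (hm k k.2).1, ?_⟩
  · -- the determinant
    have hMA : jac Φ (γ t₀) * A = Complex.I • (1 : Matrix (Fin s) (Fin s) ℂ) := by
      ext a b
      have h1 : (jac Φ (γ t₀) * A) a b = (jac Φ (γ t₀)).mulVec (e.symm (Pi.single b Complex.I)) a := by
        simp [Matrix.mul_apply, Matrix.mulVec, dotProduct, A]
      rw [h1, ← he, e.apply_symm_apply]
      by_cases hab : a = b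
      · subst hab; simp
      · simp [hab]
    intro hA
    have h2 := congrArg Matrix.det hMA
    rw [Matrix.det_mul, hA, mul_zero, Matrix.det_smul, Matrix.det_one, mul_one] at h2
    exact pow_ne_zero _ Complex.I_ne_zero h2.symm
  · intro k j
    -- differentiate along the `j`-th coordinate
    let d : ℝ → (Fin s → ℝ) := fun r => t₀ + r • (Pi.single j 1 : Fin s → ℝ)
    have hd0 : d 0 = t₀ := by simp [d]
    have hdc : Continuous d := by fun_prop
    have hcd : HasDerivAt (fun r => c (d r)) (Pi.single j Complex.I) 0 := by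
      have h0 : (fun r => c (d r)) = fun r : ℝ => c t₀ + (r : ℂ) • (Pi.single j Complex.I) := by
        ext r a
        by_cases ha : a = j
        · subst ha; simp [c, d]; ring
        · simp [c, d, Pi.single_apply, ha]
      rw [h0]
      have h1 : HasDerivAt (fun t : ℝ => (t : ℂ)) 1 0 := Complex.ofRealCLM.hasDerivAt
      have h2 := (h1.smul_const (Pi.single j Complex.I : Fin s → ℂ)).const_add (c t₀)
      simpa using h2
    have h3 : HasDerivAt (fun r => γ (d r)) (e.symm (Pi.single j Complex.I)) 0 := by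
      have hψd' : HasFDerivAt H.symm ((e.symm : (Fin s → ℂ) →L[ℂ] (Fin s → ℂ)).restrictScalars ℝ)
          (c (d 0)) := by
        rw [hd0]
        exact hsym.hasFDerivAt.restrictScalars ℝ
      exact hψd'.comp_hasDerivAt 0 hcd
    have h4 : ∀ i, HasDerivAt (fun r => γ (d r) i) (A i j) 0 := by
      intro i
      exact (hasDerivAt_pi.1 h3) i
    have h5 : HasDerivAt (fun r => ω k * ∑ i, (m k i : ℂ) * γ (d r) i)
        (ω k * ∑ i, (m k i : ℂ) * A i j) 0 := by
      apply HasDerivAt.const_mul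
      apply HasDerivAt.fun_sum
      intro i _
      exact (h4 i).const_mul _
    have h6 : HasDerivAt (fun r => (ω k * ∑ i, (m k i : ℂ) * γ (d r) i).re)
        (ω k * ∑ i, (m k i : ℂ) * A i j).re 0 := by
      exact Complex.reCLM.hasFDerivAt.comp_hasDerivAt (0 : ℝ) h5
    have h7 : (fun r => (ω k * ∑ i, (m k i : ℂ) * γ (d r) i).re) =ᶠ[𝓝 0] fun _ => (0 : ℝ) := by
      have h8 : ∀ᶠ r in 𝓝 (0 : ℝ), d r ∈ O' := by
        apply hdc.continuousAt
        rw [hd0]
        exact hO'o.mem_nhds ht₀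
      filter_upwards [h8] with r hr
      exact (hm k k.2).2 _ hr
    exact h6.unique ((hasDerivAt_const (0 : ℝ) (0 : ℝ)).congr_of_eventuallyEq h7)

end Pool.Agent.K3h87.EX
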