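import Pool.Agent.K3h87.EX.Baire
import Pool.Agent.K3h22.EX.Alg
import Pool.Agent.K3h30.EX.Model

/-! EX project (helper22), brick DOMPT: purely imaginary values of dominant polynomial maps. -/

set_option autoImplicit false

namespace Pool.Agent.K3h87.EX

open MvPolynomial Filter Topology Metric Set
open Pool.Agent.K3h22.EX
open Pool.Agent.K3h33.EX
open Algebra (adjoin)

lemma eval_aeval_Phi {s : ℕ} (Φ : Fin s → MvPolynomial (Fin s) ℂ) (z : Fin s → ℂ)
    (p : MvPolynomial (Fin s) ℂ) :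
    eval z (aeval Φ p) = eval (fun a => eval z (Φ a)) p := by
  induction p using MvPolynomial.induction_on with
  | C c => simp
  | add p q hp hq => rw [map_add, map_add, map_add, hp, hq]
  | mul_X p i hp => rw [map_mul, map_mul, map_mul, hp, aeval_X, eval_X]

lemma indep_of_jac {s : ℕ} (Φ : Fin s → MvPolynomial (Fin s) ℂ) (ζ₀ : Fin s → ℂ)
    (h : (jac Φ ζ₀).det ≠ 0) : AlgebraicIndependent ℂ Φ := by
  rw [algebraicIndependent_iff]
  intro p hp
  obtain ⟨e, -, he⟩ := equiv_jac Φ ζ₀ h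
  have h1 := he.map_nhds_eq_of_equiv
  have h2 : {w : Fin s → ℂ | eval w p = 0} ∈ 𝓝 (fun a => eval ζ₀ (Φ a)) := by
    have h3 : {w : Fin s → ℂ | eval w p = 0} ∈
        Filter.map (fun x : Fin s → ℂ => fun a => eval x (Φ a)) (𝓝 ζ₀) := by
      rw [Filter.mem_map]
      apply Filter.univ_mem'
      intro z
      show eval (fun a => eval z (Φ a)) p = 0
      rw [← eval_aeval_Phi, hp, map_zero]
    rwa [h1] at h3
  obtain ⟨ε, hε, hb⟩ := Metric.mem_nhds_iff.1 h2
  apply MvPolynomial.funext_set (fun a => ball (eval ζ₀ (Φ a)) ε)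
  · intro a
    exact infinite_of_mem_nhds _ (ball_mem_nhds _ hε)
  · intro x hx
    rw [map_zero]
    apply hb
    rw [mem_ball, dist_pi_lt_iff hε]
    intro a
    exact hx a (mem_univ a)

lemma algebraic_of_indep {s : ℕ} (Φ : Fin s → MvPolynomial (Fin s) ℂ)
    (h : AlgebraicIndependent ℂ Φ) (y : MvPolynomial (Fin s) ℂ) :
    ∃ p : Polynomial (MvPolynomial (Fin s) ℂ), p ≠ 0 ∧
      p.eval₂ (aeval Φ : MvPolynomial (Fin s) ℂ →ₐ[ℂ] MvPolynomial (Fin s) ℂ).toRingHom y = 0 := by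
  have hb : IsTranscendenceBasis ℂ Φ := h.isTranscendenceBasis_of_trdeg_le_of_finite (by simp)
  have halg := hb.isAlgebraic
  obtain ⟨p, hp0, hp⟩ := halg.isAlgebraic y
  let e := h.aevalEquiv
  let ε : adjoin ℂ (range Φ) →+* MvPolynomial (Fin s) ℂ := e.symm.toRingEquiv.toRingHom
  have hε : Function.Injective ε := e.symm.injective
  refine ⟨p.map ε, ?_, ?_⟩
  · intro h0
    apply hp0
    apply Polynomial.map_injective ε hε
    rw [Polynomial.map_zero]
    exact h0
  · rw [Polynomial.eval₂_map]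
    rw [← hp, Polynomial.aeval_def]
    congr 1
    ext a
    show _ = _
    have h3 : (aeval Φ (e.symm a) : MvPolynomial (Fin s) ℂ) = (a : MvPolynomial (Fin s) ℂ) := by
      have := h.algebraMap_aevalEquiv (e.symm a)
      rw [← this]
      simp [e]
    simp only [RingHom.comp_apply]
    exact congrArg _ h3

theorem dom_aux {s : ℕ} (K : Type) [Field K] [CharZero K] (ι : MvPolynomial (Fin s) ℂ →+* K)
    (hι : Function.Injective ι) (Φ : Fin s → MvPolynomial (Fin s) ℂ)
    (h : AlgebraicIndependent ℂ Φ) (δ : MvPolynomial (Fin s) ℂ) (hδ : δ ≠ 0) :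
    ∃ g : MvPolynomial (Fin s) ℂ, g ≠ 0 ∧ ∀ w : Fin s → ℂ, eval w g ≠ 0 →
      ∃ ζ : Fin s → ℂ, (∀ a, eval ζ (Φ a) = w a) ∧ eval ζ δ ≠ 0 := by
  classical
  let alg : Algebra (MvPolynomial (Fin s) ℂ) K := (ι.comp
    (aeval Φ : MvPolynomial (Fin s) ℂ →ₐ[ℂ] MvPolynomial (Fin s) ℂ).toRingHom).toAlgebra
  have halgmap : ∀ x : MvPolynomial (Fin s) ℂ, algebraMap (MvPolynomial (Fin s) ℂ) K x =
    ι (aeval Φ x) := fun x => rfl
  have hinj : Function.Injective (algebraMap (MvPolynomial (Fin s) ℂ) K) := by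
    intro x y hxy
    rw [halgmap, halgmap] at hxy
    exact h (hι hxy)
  have hy : ∀ j : Fin s, IsAlgebraic (MvPolynomial (Fin s) ℂ) (ι (X j)) := by
    intro j
    obtain ⟨p, hp0, hp⟩ := algebraic_of_indep Φ h (X j)
    refine ⟨p, hp0, ?_⟩
    rw [Polynomial.aeval_def]
    show Polynomial.eval₂ (ι.comp _) (ι (X j)) p = 0
    rw [← Polynomial.hom_eval₂, hp, map_zero]
  obtain ⟨θ, D, Δ, N, U, W, hθ, hD, hΔ, hN, -⟩ := Pool.Agent.K3h30.EX.t_MODEL
    (MvPolynomial (Fin s) ℂ) K (Fin s) hinj (fun j => ι (X j)) hy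
  let σ := Fin s ⊕ Fin s
  let ψ : MvPolynomial σ ℂ →+* K := ι.comp
    (aeval (Sum.elim (fun j => (X j : MvPolynomial (Fin s) ℂ)) Φ) :
      MvPolynomial σ ℂ →ₐ[ℂ] MvPolynomial (Fin s) ℂ).toRingHom
  have hψa : ∀ f, ψ f = ι (aeval (Sum.elim (fun j => (X j : MvPolynomial (Fin s) ℂ)) Φ) f) :=
    fun f => rfl
  let a0 : ℂ →+* MvPolynomial (Fin s) ℂ := C
  have hψ : ∀ c, ψ (C c) = algebraMap (MvPolynomial (Fin s) ℂ) K (a0 c) := by
    intro c
    rw [halgmap, hψa]
    simp [a0, MvPolynomial.algebraMap_eq]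
  let Gv : σ → Polynomial (MvPolynomial (Fin s) ℂ) :=
    Sum.elim N (fun a => Polynomial.C (D * X a))
  have hG : ∀ v, algebraMap (MvPolynomial (Fin s) ℂ) K D * ψ (X v) =
      Polynomial.aeval θ (Gv v) := by
    rintro (j | a)
    · have : ψ (X (Sum.inl j)) = ι (X j) := by rw [hψa]; simp
      rw [this]
      exact hN j
    · have : ψ (X (Sum.inr a)) = algebraMap (MvPolynomial (Fin s) ℂ) K (X a) := by
        rw [hψa, halgmap]; simp
      rw [this]
      simp only [Gv, Sum.elim_inr, Polynomial.aeval_C, map_mul]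
  have hren : ∀ f : MvPolynomial (Fin s) ℂ,
      ψ (rename (Sum.inl : Fin s → σ) f) = ι f := by
    intro f
    rw [hψa, aeval_rename]
    congr 1
    have : (Sum.elim (fun j => (X j : MvPolynomial (Fin s) ℂ)) Φ) ∘ (Sum.inl : Fin s → σ) = X := by
      ext j : 1
      rfl
    rw [this]
    simp
  have hδ' : ψ (rename (Sum.inl : Fin s → σ) δ) ≠ 0 := by
    rw [hren]
    intro h0
    exact hδ (hι (by rw [h0, map_zero]))
  obtain ⟨g0, hg0, hg⟩ := nonvanish hinj ψ a0 hψ θ hθ D hD Gv hG _ hδ'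
  refine ⟨D * g0, mul_ne_zero hD hg0, ?_⟩
  intro w hw
  rw [map_mul] at hw
  have hDw : eval w D ≠ 0 := left_ne_zero_of_mul hw
  have hgw : eval w g0 ≠ 0 := right_ne_zero_of_mul hw
  -- a root
  have hmon : (minpoly (MvPolynomial (Fin s) ℂ) θ).Monic := minpoly.monic hθ
  have hdeg : 0 < (minpoly (MvPolynomial (Fin s) ℂ) θ).natDegree := minpoly.natDegree_pos hθ
  obtain ⟨t, ht⟩ : ∃ t, ((minpoly (MvPolynomial (Fin s) ℂ) θ).map (eval w)).eval t = 0 := by
    have h1 : ((minpoly (MvPolynomial (Fin s) ℂ) θ).map (eval w)).degree ≠ 0 := by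
      rw [hmon.degree_map]
      intro h0
      rw [Polynomial.degree_eq_natDegree hmon.ne_zero] at h0
      have : (minpoly (MvPolynomial (Fin s) ℂ) θ).natDegree = 0 := by exact_mod_cast h0
      omega
    obtain ⟨t, ht⟩ := IsAlgClosed.exists_root _ h1
    exact ⟨t, ht⟩
  let q : σ → ℂ := fun v => ((Gv v).map (eval w)).eval t / eval w D
  have hq : ∀ v, eval w D * q v = ((Gv v).map (eval w)).eval t := by
    intro v
    simp only [q]
    field_simp
  have h1 : ∀ c, (eval w) (a0 c) = c := fun c => by simp [a0]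
  refine ⟨fun j => q (Sum.inl j), ?_, ?_⟩
  · intro a
    have hf : ψ (rename (Sum.inl : Fin s → σ) (Φ a) - X (Sum.inr a)) = 0 := by
      rw [map_sub, hren, hψa]
      simp
    have h2 := vanish hinj ψ a0 hψ θ hθ D Gv hG _ hf (eval w) t q h1 hq hDw ht
    rw [map_sub, eval_X, eval_rename, sub_eq_zero] at h2
    have h3 : q (Sum.inr a) = w a := by
      simp only [q, Gv, Sum.elim_inr]
      rw [Polynomial.map_C, Polynomial.eval_C, map_mul, eval_X]
      field_simp
    rw [← h3, ← h2]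
    rfl
  · have h2 := hg (eval w) t q h1 hq ht hgw
    rw [eval_rename] at h2
    exact h2

theorem t_DOMPT : S_DOMPT := by
  classical
  intro s Φ ζ₀ h0
  let δ : MvPolynomial (Fin s) ℂ := (Matrix.of fun a b => pderiv b (Φ a)).det
  have hδe : ∀ z, eval z δ = (jac Φ z).det := by
    intro z
    have := RingHom.map_det (eval z) (Matrix.of fun a b : Fin s => pderiv b (Φ a))
    rw [show eval z δ = _ from this]
    rfl
  have hδ : δ ≠ 0 := by
    intro h
    apply h0
    rw [← hδe, h, map_zero]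
  obtain ⟨g, hg0, hg⟩ := dom_aux (FractionRing (MvPolynomial (Fin s) ℂ))
    (algebraMap (MvPolynomial (Fin s) ℂ) (FractionRing (MvPolynomial (Fin s) ℂ)))
    (IsFractionRing.injective _ _) Φ (indep_of_jac Φ ζ₀ h0) δ hδ
  -- the polynomial `g (i X)`
  let g' : MvPolynomial (Fin s) ℂ := aeval (fun j => C Complex.I * X j) g
  have hg'e : ∀ z : Fin s → ℂ, eval z g' = eval (fun j => Complex.I * z j) g := by
    intro z
    have := eval_aeval_Phi (fun j : Fin s => C Complex.I * X j) z g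
    rw [show eval z g' = _ from this]
    simp
  have hg' : g' ≠ 0 := by
    intro h
    apply hg0
    apply MvPolynomial.funext
    intro z
    have h1 := hg'e (fun j => -Complex.I * z j)
    rw [h, map_zero] at h1
    rw [map_zero, h1]
    congr 2
    ext j
    rw [← mul_assoc]
    simp
  obtain ⟨a, ha, -⟩ := Pool.Agent.K3h30.EX.t_GENREAL s g' hg'
  rw [hg'e] at ha
  obtain ⟨ζ, h1, h2⟩ := hg _ ha
  refine ⟨ζ, ?_, ?_⟩
  · intro b
    rw [h1]
    simp
  · rw [← hδe]
    exact h2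

end Pool.Agent.K3h87.EX
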