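import Pool.Agent.K3h22.EX.Stm4
import Pool.Agent.K3h60.EX.Der

/-! EX project (helper22), brick TBASIS: completion to a transcendence basis. -/

set_option autoImplicit false

namespace Pool.Agent.K3h87.EX

open MvPolynomial Set
open Pool.Agent.K3h22.EX

section

variable {σ R : Type} [CommRing R] [IsDomain R] [Algebra ℂ R] (x : σ → R)

lemma tb_of_alg (hx : Algebra.adjoin ℂ (range x) = ⊤) (J : Set σ) (hJ : AlgebraicIndepOn ℂ x J)
    (h : ∀ v, v ∉ J → IsAlgebraic (Algebra.adjoin ℂ (x '' J)) (x v)) :
    IsTranscendenceBasis ℂ (fun v : J => x v) := by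
  have hJ' : AlgebraicIndependent ℂ (fun v : J => x v) := hJ
  rw [hJ'.isTranscendenceBasis_iff_isAlgebraic]
  have hr : range (fun v : J => x v) = x '' J := by
    ext y; simp
  rw [hr]
  have hall : ∀ y ∈ range x, IsAlgebraic (Algebra.adjoin ℂ (x '' J)) y := by
    rintro _ ⟨v, rfl⟩
    by_cases hv : v ∈ J
    · exact isAlgebraic_algebraMap
        (⟨x v, Algebra.subset_adjoin ⟨v, hv, rfl⟩⟩ : Algebra.adjoin ℂ (x '' J))
    · exact h v hv
  have h1 := (Algebra.isAlgebraic_adjoin_iff (R := Algebra.adjoin ℂ (x '' J)) (S := R)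
    (s := range x)).2 hall
  refine ⟨fun y => ?_⟩
  have hy : y ∈ Algebra.adjoin (Algebra.adjoin ℂ (x '' J)) (range x) := by
    have hy0 : y ∈ Algebra.adjoin ℂ (range x) := by rw [hx]; trivial
    refine Algebra.adjoin_induction ?_ ?_ ?_ ?_ hy0
    · intro z hz; exact Algebra.subset_adjoin hz
    · intro c
      have : algebraMap ℂ R c = algebraMap (Algebra.adjoin ℂ (x '' J)) R (algebraMap ℂ _ c) := rfl
      rw [this]
      exact Subalgebra.algebraMap_mem _ _
    · intro a b _ _ ha hb; exact Subalgebra.add_mem _ ha hb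
    · intro a b _ _ ha hb; exact Subalgebra.mul_mem _ ha hb
  exact h1 y hy

end

lemma indep_iff {n : ℕ} (P : Ideal (MvPolynomial (Fin n ⊕ Fin n) ℂ))
    (V : Set (Fin n ⊕ Fin n → ℂ))
    (hV : ∀ f : MvPolynomial (Fin n ⊕ Fin n) ℂ, f ∈ P ↔ ∀ p ∈ V, eval p f = 0)
    (J : Finset (Fin n ⊕ Fin n)) :
    Indep V J ↔ AlgebraicIndepOn ℂ (fun v => Ideal.Quotient.mk P (X v)) (J : Set _) := by
  classical
  have haev : ∀ g : MvPolynomial (J : Set (Fin n ⊕ Fin n)) ℂ,
      aeval (fun v : (J : Set (Fin n ⊕ Fin n)) => Ideal.Quotient.mk P (X v.1)) g =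
        Ideal.Quotient.mk P (rename (fun v => v.1) g) := by
    intro g
    induction g using MvPolynomial.induction_on with
    | C c => simp; rfl
    | add p q hp hq => rw [map_add, map_add, map_add, hp, hq]
    | mul_X p i hp => rw [map_mul, map_mul, map_mul, hp, aeval_X, rename_X]
  unfold AlgebraicIndepOn
  rw [algebraicIndependent_iff]
  constructor
  · intro h g hg
    rw [haev, Ideal.Quotient.eq_zero_iff_mem, hV] at hg
    have h1 : rename (fun v : (J : Set (Fin n ⊕ Fin n)) => v.1) g = 0 := by
      apply h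
      · intro v hv
        have := vars_rename _ g hv
        rw [Finset.mem_image] at this
        obtain ⟨w, -, rfl⟩ := this
        exact w.2
      · exact hg
    exact rename_injective _ Subtype.val_injective (by rw [h1, map_zero])
  · intro h f hf hfV
    rw [← hV] at hfV
    obtain ⟨g, rfl⟩ := MvPolynomial.exists_rename_eq_of_vars_subset_range f
      (fun v : (J : Set (Fin n ⊕ Fin n)) => v.1) Subtype.val_injective (by
        intro v hv
        exact ⟨⟨v, hf hv⟩, rfl⟩)
    have h1 := h g (by
      rw [haev, Ideal.Quotient.eq_zero_iff_mem]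
      exact hfV)
    rw [h1, map_zero]

theorem t_TBASIS : S_TBASIS := by
  classical
  intro n s P V hP hV hne ι hι hind hpol hJ hJ1
  obtain ⟨d1, d2, -, -, -⟩ := Pool.Agent.K3h60.EX.t_DER n s P V hP hV hne ι hι
  have hVP : ∀ f : MvPolynomial (Fin n ⊕ Fin n) ℂ, f ∈ P ↔ ∀ p ∈ V, eval p f = 0 := by
    intro f
    refine ⟨fun hf p hp => ?_, fun h => d1 f h⟩
    rw [hV] at hp
    exact hp.1 f hf
  have hiff := indep_iff P V hVP
  let R := MvPolynomial (Fin n ⊕ Fin n) ℂ ⧸ P
  let x : Fin n ⊕ Fin n → R := fun v => Ideal.Quotient.mk P (X v)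
  have hdom : IsDomain R := Ideal.Quotient.isDomain P
  have hadj : Algebra.adjoin ℂ (range x) = ⊤ := by
    rw [eq_top_iff]
    rintro y -
    obtain ⟨f, rfl⟩ := Ideal.Quotient.mk_surjective y
    induction f using MvPolynomial.induction_on with
    | C c => exact Subalgebra.algebraMap_mem _ c
    | add p q hp hq => rw [map_add]; exact Subalgebra.add_mem _ hp hq
    | mul_X p i hp =>
      rw [map_mul]
      exact Subalgebra.mul_mem _ hp (Algebra.subset_adjoin ⟨i, rfl⟩)
  -- the given basis
  obtain ⟨J, hJc, hJi⟩ := hJ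
  have hb1 : IsTranscendenceBasis ℂ (fun v : (J : Set (Fin n ⊕ Fin n)) => x v) := by
    apply tb_of_alg x hadj _ ((hiff J).1 hJi)
    intro v hv
    have hvJ : v ∉ J := hv
    have h1 := hJ1 (insert v J) (by rw [Finset.card_insert_of_notMem hvJ, hJc])
    rw [hiff, Finset.coe_insert, AlgebraicIndepOn.insert_iff hv] at h1
    by_contra hcon
    exact h1 ⟨(hiff J).1 hJi, hcon⟩
  -- a maximal set of the `y`
  obtain ⟨B, hB, hBmax⟩ : ∃ B : Finset (Fin n), Indep V (coords ι B) ∧
      ∀ B' : Finset (Fin n), Indep V (coords ι B') → B'.card ≤ B.card := by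
    obtain ⟨B, hB, hmax⟩ := (Finset.univ.filter fun B : Finset (Fin n) =>
      Indep V (coords ι B)).exists_max_image Finset.card
      ⟨∅, Finset.mem_filter.2 ⟨Finset.mem_univ _, hind⟩⟩
    rw [Finset.mem_filter] at hB
    exact ⟨B, hB.2, fun B' hB' => hmax B' (Finset.mem_filter.2 ⟨Finset.mem_univ _, hB'⟩)⟩
  have hb2 : IsTranscendenceBasis ℂ (fun v : (coords ι B : Set (Fin n ⊕ Fin n)) => x v) := by
    apply tb_of_alg x hadj _ ((hiff _).1 hB)
    intro v hv
    rcases v with i | j
    · obtain ⟨p, hp⟩ := hpol i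
      have h1 := d2 i p hp
      have h2 : x (Sum.inl i) = Ideal.Quotient.mk P (rename (fun a => Sum.inl (ι a)) p) := by
        rw [← sub_eq_zero]
        show Ideal.Quotient.mk P (X (Sum.inl i)) - _ = 0
        rw [← map_sub, Ideal.Quotient.eq_zero_iff_mem]
        exact h1
      have h3 : ∀ p : MvPolynomial (Fin s) ℂ,
          Ideal.Quotient.mk P (rename (fun a => (Sum.inl (ι a) : Fin n ⊕ Fin n)) p) ∈
            Algebra.adjoin ℂ (x '' (coords ι B : Set (Fin n ⊕ Fin n))) := by
        intro p
        induction p using MvPolynomial.induction_on with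
        | C c => rw [rename_C]; exact Subalgebra.algebraMap_mem _ c
        | add p q hp hq => rw [map_add, map_add]; exact Subalgebra.add_mem _ hp hq
        | mul_X p a hp =>
          rw [map_mul, map_mul, rename_X]
          refine Subalgebra.mul_mem _ hp (Algebra.subset_adjoin ⟨Sum.inl (ι a), ?_, rfl⟩)
          show Sum.inl (ι a) ∈ coords ι B
          unfold coords
          exact Finset.mem_union_left _ (Finset.mem_image_of_mem _ (Finset.mem_univ a))
      rw [h2]
      exact isAlgebraic_algebraMap
        (⟨_, h3 p⟩ : Algebra.adjoin ℂ (x '' (coords ι B : Set (Fin n ⊕ Fin n))))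
    · have hj : j ∉ B := by
        intro hj
        apply hv
        show Sum.inr j ∈ coords ι B
        unfold coords
        exact Finset.mem_union_right _ (Finset.mem_image_of_mem _ hj)
      have h1 : coords ι (insert j B) = insert (Sum.inr j) (coords ι B) := by
        unfold coords
        rw [Finset.image_insert, Finset.union_insert]
      have h2 : ¬ Indep V (coords ι (insert j B)) := by
        intro h
        have := hBmax _ h
        rw [Finset.card_insert_of_notMem hj] at this
        omega
      rw [h1, hiff, Finset.coe_insert, AlgebraicIndepOn.insert_iff hv] at h2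
      by_contra hcon
      exact h2 ⟨(hiff _).1 hB, hcon⟩
  have hcard := hb1.cardinalMk_eq hb2
  have hc2 : J.card = (coords ι B).card := by
    have h1 : Cardinal.mk (J : Set (Fin n ⊕ Fin n)) = J.card := by simp
    have h2 : Cardinal.mk (coords ι B : Set (Fin n ⊕ Fin n)) = (coords ι B).card := by simp
    rw [h1, h2] at hcard
    exact_mod_cast hcard
  refine ⟨B, ?_, hB⟩
  have hc3 : (coords ι B).card = s + B.card := by
    unfold coords
    rw [Finset.card_union_of_disjoint, Finset.card_image_of_injective,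
      Finset.card_image_of_injective _ Sum.inr_injective, Finset.card_univ, Fintype.card_fin]
    · intro a b hab
      exact hι (Sum.inl_injective hab)
    · rw [Finset.disjoint_left]
      intro v hv hv'
      rw [Finset.mem_image] at hv hv'
      obtain ⟨a, -, rfl⟩ := hv
      obtain ⟨b, -, hb⟩ := hv'
      simp at hb
  omega

end Pool.Agent.K3h87.EX
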