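import Pool.Agent.K3h22.EX.Stm3

/-! EX project (helper22), brick UNIT: zero-free balls for exponential polynomials with linear
exponents. -/

set_option autoImplicit false

namespace Pool.Agent.K3h87.EX

open MvPolynomial Filter Topology Metric Set
open Pool.Agent.K3h22.EX

section lin

variable {s : ℕ}

/-- polynomials of degree at most one -/
lemma lin_eq (q : MvPolynomial (Fin s) ℂ) (hq : q.totalDegree ≤ 1) :
    q = C (coeff 0 q) + ∑ i, C (coeff (Finsupp.single i 1) q) * X i := by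
  classical
  ext m
  rw [coeff_add, coeff_C, coeff_sum]
  simp only [coeff_C_mul, coeff_X]
  by_cases h0 : (0 : Fin s →₀ ℕ) = m
  · subst h0
    rw [if_pos rfl, Finset.sum_eq_zero, add_zero]
    intro i _
    rw [if_neg, mul_zero]
    intro h
    have := congrArg (fun f : Fin s →₀ ℕ => f i) h
    simp at this
  · rw [if_neg h0, zero_add]
    by_cases h1 : ∃ i, Finsupp.single i 1 = m
    · obtain ⟨i, rfl⟩ := h1
      rw [Finset.sum_eq_single i]
      · simp
      · intro j _ hji
        rw [if_neg, mul_zero]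
        intro h
        exact hji ((Finsupp.single_left_injective one_ne_zero) h)
      · intro h; exact absurd (Finset.mem_univ i) h
    · push Not at h1
      rw [Finset.sum_eq_zero (fun i _ => by rw [if_neg (h1 i), mul_zero])]
      apply coeff_eq_zero_of_totalDegree_lt
      refine lt_of_le_of_lt hq ?_
      -- the degree of `m` is at least two
      by_contra hcon
      push Not at hcon
      have hne : m.support.Nonempty := by
        rw [Finsupp.support_nonempty_iff]; exact fun h => h0 h.symm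
      obtain ⟨i, hi⟩ := hne
      have hmi : m i ≠ 0 := Finsupp.mem_support_iff.1 hi
      have h2 : ∑ j ∈ m.support, m j = m i + ∑ j ∈ m.support.erase i, m j :=
        (Finset.add_sum_erase _ _ hi).symm
      have h3 : m i = 1 := by omega
      have h4 : ∑ j ∈ m.support.erase i, m j = 0 := by omega
      apply h1 i
      ext j
      by_cases hji : i = j
      · subst hji; simp [h3]
      · rw [Finsupp.single_eq_of_ne (by tauto)]
        by_cases hj : j ∈ m.support
        · have := (Finset.sum_eq_zero_iff.1 h4) j (Finset.mem_erase.2 ⟨fun h => hji h.symm, hj⟩)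
          exact this.symm
        · exact (Finsupp.notMem_support_iff.1 hj).symm

/-- the linear part -/
noncomputable def lam (q : MvPolynomial (Fin s) ℂ) (i : Fin s) : ℂ :=
  coeff (Finsupp.single i 1) q

lemma eval_lin (q : MvPolynomial (Fin s) ℂ) (hq : q.totalDegree ≤ 1) (z : Fin s → ℂ) :
    eval z q = coeff 0 q + ∑ i, lam q i * z i := by
  conv_lhs => rw [lin_eq q hq]
  simp [lam]

lemma eval_lin_add (q : MvPolynomial (Fin s) ℂ) (hq : q.totalDegree ≤ 1) (z w : Fin s → ℂ) :
    eval (z + w) q = eval z q + ∑ i, lam q i * w i := by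
  rw [eval_lin q hq, eval_lin q hq]
  simp only [Pi.add_apply, mul_add, Finset.sum_add_distrib]
  ring

/-- bounds in both directions for a factor of a translated monomial -/
def Top (f : MvPolynomial (Fin s) ℂ) (k : Fin s →₀ ℕ) : Prop :=
  (∀ j, coeff j f ≠ 0 → j ≤ k) ∧ coeff k f = 1

lemma Top.mul {f g : MvPolynomial (Fin s) ℂ} {k l : Fin s →₀ ℕ} (hf : Top f k) (hg : Top g l) :
    Top (f * g) (k + l) := by
  classical
  refine ⟨fun j hj => ?_, ?_⟩
  · rw [coeff_mul] at hj
    obtain ⟨x, hx, hx0⟩ := Finset.exists_ne_zero_of_sum_ne_zero hj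
    rw [Finset.HasAntidiagonal.mem_antidiagonal] at hx
    rw [← hx]
    exact add_le_add (hf.1 _ (left_ne_zero_of_mul hx0)) (hg.1 _ (right_ne_zero_of_mul hx0))
  · rw [coeff_mul, Finset.sum_eq_single (k, l)]
    · rw [hf.2, hg.2, mul_one]
    · intro x hx hne
      rw [Finset.HasAntidiagonal.mem_antidiagonal] at hx
      by_contra h0
      have h1 := hf.1 _ (left_ne_zero_of_mul h0)
      have h2 := hg.1 _ (right_ne_zero_of_mul h0)
      apply hne
      have h3 : x.1 = k := by
        ext i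
        have e1 := h1 i
        have e2 := h2 i
        have e3 := congrArg (fun f : Fin s →₀ ℕ => f i) hx
        simp only [Finsupp.add_apply] at e3
        omega
      have h4 : x.2 = l := by
        ext i
        have e1 := h1 i
        have e2 := h2 i
        have e3 := congrArg (fun f : Fin s →₀ ℕ => f i) hx
        simp only [Finsupp.add_apply] at e3
        omega
      exact Prod.ext h3 h4
    · intro h
      exfalso
      apply h
      rw [Finset.HasAntidiagonal.mem_antidiagonal]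

lemma Top.one : Top (1 : MvPolynomial (Fin s) ℂ) 0 := by
  classical
  refine ⟨fun j hj => ?_, by simp⟩
  rw [coeff_one] at hj
  by_cases h : (0 : Fin s →₀ ℕ) = j
  · rw [← h]
  · rw [if_neg h] at hj; exact absurd rfl hj

lemma Top.pow {f : MvPolynomial (Fin s) ℂ} {k : Fin s →₀ ℕ} (hf : Top f k) (n : ℕ) :
    Top (f ^ n) (n • k) := by
  induction n with
  | zero => simpa using Top.one
  | succ n ih =>
    rw [pow_succ, succ_nsmul]
    exact ih.mul hf

lemma Top.prod {ι : Type*} (t : Finset ι) (f : ι → MvPolynomial (Fin s) ℂ)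
    (k : ι → (Fin s →₀ ℕ)) (h : ∀ i ∈ t, Top (f i) (k i)) :
    Top (∏ i ∈ t, f i) (∑ i ∈ t, k i) := by
  classical
  induction t using Finset.induction_on with
  | empty => simpa using Top.one
  | insert a t ha ih =>
    rw [Finset.prod_insert ha, Finset.sum_insert ha]
    exact (h a (Finset.mem_insert_self _ _)).mul
      (ih fun i hi => h i (Finset.mem_insert_of_mem hi))

lemma Top.lin (z : ℂ) (i : Fin s) : Top (X i + C z) (Finsupp.single i 1) := by
  classical
  refine ⟨fun j hj => ?_, ?_⟩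
  · rw [coeff_add, coeff_X, coeff_C] at hj
    by_cases h1 : Finsupp.single i 1 = j
    · rw [← h1]
    · by_cases h2 : (0 : Fin s →₀ ℕ) = j
      · rw [← h2]; exact zero_le
      · rw [if_neg h1, if_neg h2] at hj
        simp at hj
  · rw [coeff_add, coeff_X, coeff_C, if_pos rfl, if_neg, add_zero]
    intro h
    have := congrArg (fun f : Fin s →₀ ℕ => f i) h
    simp at this

/-- translation -/
noncomputable def tr (z : Fin s → ℂ) (q : MvPolynomial (Fin s) ℂ) : MvPolynomial (Fin s) ℂ :=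
  aeval (fun i => X i + C (z i)) q

lemma eval_tr (z w : Fin s → ℂ) (q : MvPolynomial (Fin s) ℂ) :
    eval w (tr z q) = eval (z + w) q := by
  unfold tr
  induction q using MvPolynomial.induction_on with
  | C c => simp
  | add p q hp hq => rw [map_add, map_add, map_add, hp, hq]
  | mul_X p i hp =>
    rw [map_mul, map_mul, map_mul, hp, aeval_X, eval_X, map_add, eval_X, eval_C, Pi.add_apply,
      add_comm (w i)]

lemma tr_eq (z : Fin s → ℂ) (q : MvPolynomial (Fin s) ℂ) :
    tr z q = ∑ k ∈ q.support, C (coeff k q) * ∏ i, (X i + C (z i)) ^ k i := by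
  unfold tr
  rw [aeval_def, eval₂_eq']
  rfl

lemma top_monom (z : Fin s → ℂ) (k : Fin s →₀ ℕ) :
    Top (∏ i, (X i + C (z i)) ^ k i : MvPolynomial (Fin s) ℂ) k := by
  have h := Top.prod (s := s) Finset.univ (fun i => (X i + C (z i)) ^ k i)
    (fun i => k i • Finsupp.single i 1) (fun i _ => (Top.lin (z i) i).pow (k i))
  have h2 : ∑ i, k i • (Finsupp.single i 1 : Fin s →₀ ℕ) = k := by
    ext j
    rw [Finsupp.finsetSum_apply, Finset.sum_eq_single j]
    · simp
    · intro i _ hij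
      simp [hij]
    · intro h; exact absurd (Finset.mem_univ j) h
  rw [h2] at h
  exact h

/-- coefficients of the translated polynomial -/
lemma coeff_tr (z : Fin s → ℂ) (q : MvPolynomial (Fin s) ℂ) (j : Fin s →₀ ℕ)
    (hj : coeff j (tr z q) ≠ 0) : ∃ k ∈ q.support, j ≤ k := by
  rw [tr_eq, coeff_sum] at hj
  obtain ⟨k, hk, hk0⟩ := Finset.exists_ne_zero_of_sum_ne_zero hj
  rw [coeff_C_mul] at hk0
  exact ⟨k, hk, (top_monom z k).1 j (right_ne_zero_of_mul hk0)⟩

lemma coeff_tr_top (z : Fin s → ℂ) (q : MvPolynomial (Fin s) ℂ) (k₀ : Fin s →₀ ℕ)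
    (hk₀ : k₀ ∈ q.support) (hmax : ∀ k ∈ q.support, k₀ ≤ k → k = k₀) :
    coeff k₀ (tr z q) = coeff k₀ q := by
  rw [tr_eq, coeff_sum, Finset.sum_eq_single k₀]
  · rw [coeff_C_mul, (top_monom z k₀).2, mul_one]
  · intro k hk hne
    rw [coeff_C_mul]
    by_contra h0
    exact hne (hmax k hk ((top_monom z k).1 k₀ (right_ne_zero_of_mul h0)))
  · intro h; exact absurd hk₀ h

end lin

lemma norm_eval_lin {s : ℕ} (q : MvPolynomial (Fin s) ℂ) (hq : q.totalDegree ≤ 1) :
    ∃ A : ℝ, 0 ≤ A ∧ ∀ z : Fin s → ℂ, ‖eval z q‖ ≤ A * (‖z‖ + 1) := by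
  refine ⟨‖coeff 0 q‖ + ∑ i, ‖lam q i‖, by positivity, fun z => ?_⟩
  rw [eval_lin q hq]
  have h1 : ‖∑ i, lam q i * z i‖ ≤ (∑ i, ‖lam q i‖) * ‖z‖ := by
    refine (norm_sum_le _ _).trans ?_
    rw [Finset.sum_mul]
    refine Finset.sum_le_sum fun i _ => ?_
    rw [norm_mul]
    exact mul_le_mul_of_nonneg_left (norm_le_pi_norm z i) (norm_nonneg _)
  have h2 := norm_add_le (coeff 0 q) (∑ i, lam q i * z i)
  have h3 : 0 ≤ ∑ i, ‖lam q i‖ := Finset.sum_nonneg fun i _ => norm_nonneg _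
  have h4 := norm_nonneg (coeff 0 q)
  have h5 := norm_nonneg z
  nlinarith

theorem t_UNIT : S_UNIT1 → S_UNIT2 → S_UNIT := by
  classical
  intro hU1 hU2 s β _ p c hp hpos G hG M hM
  -- frequencies
  let Λ : (β →₀ ℕ) → (Fin s → ℂ) := fun m i => ∑ b, (m b : ℂ) * lam (p b) i
  have hΛinj : ∀ m m' : β →₀ ℕ, Λ m = Λ m' → m = m' := by
    intro m m' h
    by_contra hne
    have h1 : (fun b => ((m b : ℤ) - (m' b : ℤ))) ≠ (0 : β → ℤ) := by
      intro h0
      apply hne
      ext b
      have := congrFun h0 b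
      simp only [Pi.zero_apply] at this
      omega
    have h2 := hpos _ h1
    set q : MvPolynomial (Fin s) ℂ :=
      ∑ b, (((m b : ℤ) - (m' b : ℤ) : ℤ) : MvPolynomial (Fin s) ℂ) * p b with hq
    have hcoef : ∀ k : Fin s →₀ ℕ, coeff k q = ∑ b, ((m b : ℂ) - (m' b : ℂ)) * coeff k (p b) := by
      intro k
      rw [hq, coeff_sum]
      refine Finset.sum_congr rfl fun b _ => ?_
      have : (((m b : ℤ) - (m' b : ℤ) : ℤ) : MvPolynomial (Fin s) ℂ) =
          C ((m b : ℂ) - (m' b : ℂ)) := by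
        simp
      rw [this, coeff_C_mul]
    have hq1 : q.totalDegree ≤ 1 := by
      rw [hq]
      refine (totalDegree_finsetSum _ _).trans ?_
      refine Finset.sup_le fun b _ => ?_
      refine (totalDegree_mul _ _).trans ?_
      have : (((m b : ℤ) - (m' b : ℤ) : ℤ) : MvPolynomial (Fin s) ℂ) =
          C (((m b : ℤ) - (m' b : ℤ) : ℤ) : ℂ) := by
        simp
      rw [this, totalDegree_C, zero_add]
      exact hp b
    have hlin := lin_eq q hq1
    have hz : ∀ i, coeff (Finsupp.single i 1) q = 0 := by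
      intro i
      rw [hcoef]
      have := congrFun h i
      simp only [Λ] at this
      have h5 : ∑ b, ((m b : ℂ) - (m' b : ℂ)) * coeff (Finsupp.single i 1) (p b) =
          ∑ b, (m b : ℂ) * lam (p b) i - ∑ b, (m' b : ℂ) * lam (p b) i := by
        rw [← Finset.sum_sub_distrib]
        exact Finset.sum_congr rfl fun b _ => by unfold lam; ring
      rw [h5, this, sub_self]
    rw [Finset.sum_eq_zero (fun i _ => by rw [hz i, C_0, zero_mul]), add_zero] at hlin
    rw [hlin, totalDegree_C] at h2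
    exact absurd h2 (lt_irrefl _)
  -- a bound for the exponents
  let K : Fin s →₀ ℕ := ∑ m ∈ G.support, ∑ k ∈ (coeff m G).support, k
  have hK : ∀ m ∈ G.support, ∀ k ∈ (coeff m G).support, k ≤ K := by
    intro m hm k hk
    have h1 : k ≤ ∑ k ∈ (coeff m G).support, k :=
      Finset.single_le_sum (f := fun k : Fin s →₀ ℕ => k) (fun _ _ => zero_le) hk
    have h2 : ∑ k ∈ (coeff m G).support, k ≤ K :=
      Finset.single_le_sum (f := fun m => ∑ k ∈ (coeff m G).support, k) (fun _ _ => zero_le) hm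
    exact h1.trans h2
  let J : Finset ((β →₀ ℕ) × (Fin s →₀ ℕ)) := G.support ×ˢ Finset.Iic K
  let ι : {x // x ∈ J} → (Fin s → ℂ) × (Fin s →₀ ℕ) := fun x => (Λ x.1.1, x.1.2)
  have hι : Function.Injective ι := by
    intro x y hxy
    have h1 := congrArg Prod.fst hxy
    have h2 := congrArg Prod.snd hxy
    exact Subtype.ext (Prod.ext (hΛinj _ _ h1) h2)
  let S : Finset ((Fin s → ℂ) × (Fin s →₀ ℕ)) := Finset.univ.image ι
  let e₀ : {x // x ∈ J} → {x // x ∈ S} :=
    fun x => ⟨ι x, Finset.mem_image_of_mem _ (Finset.mem_univ _)⟩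
  have he₀ : Function.Bijective e₀ := by
    constructor
    · intro x y hxy
      exact hι (congrArg Subtype.val hxy)
    · rintro ⟨y, hy⟩
      obtain ⟨x, -, rfl⟩ := Finset.mem_image.1 hy
      exact ⟨x, rfl⟩
  let e : {x // x ∈ J} ≃ {x // x ∈ S} := Equiv.ofBijective e₀ he₀
  let f : {x // x ∈ J} → (Fin s → ℂ) → ℂ := fun x w =>
    (∏ i, w i ^ (x.1.2 i)) * Complex.exp (∑ i, Λ x.1.1 i * w i)
  have hfc : ∀ j, Continuous (f j) := by
    intro j
    simp only [f]
    fun_prop
  obtain ⟨c₀, hc₀, hc⟩ := hU1 s {x // x ∈ J} f M hfc (by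
    intro a ha
    obtain ⟨τ, hτ, h⟩ := hU2 s S M hM (fun y => a (e.symm y)) (by
      intro h0
      apply ha
      ext x
      have := congrFun h0 (e x)
      simpa using this)
    refine ⟨τ, hτ, ?_⟩
    rw [← Equiv.sum_comp e] at h
    simp only [Equiv.symm_apply_apply] at h
    exact h)
  -- the distinguished coefficient
  obtain ⟨m₀, hm₀⟩ : G.support.Nonempty := by
    rw [Finset.nonempty_iff_ne_empty]
    intro h; exact hG (support_eq_empty.1 h)
  obtain ⟨k₁, hk₁⟩ : (coeff m₀ G).support.Nonempty := by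
    rw [Finset.nonempty_iff_ne_empty]
    intro h
    exact (mem_support_iff.1 hm₀) (support_eq_empty.1 h)
  obtain ⟨k₀, hk₀⟩ := (coeff m₀ G).support.exists_maximal ⟨k₁, hk₁⟩
  have hk₀m : k₀ ∈ (coeff m₀ G).support := hk₀.prop
  have hk₀max : ∀ k ∈ (coeff m₀ G).support, k₀ ≤ k → k = k₀ := by
    intro k hk hle
    exact le_antisymm (hk₀.le_of_ge hk hle) hle
  have hj₀ : (m₀, k₀) ∈ J := by
    refine Finset.mem_product.2 ⟨hm₀, ?_⟩
    rw [Finset.mem_Iic]
    exact hK m₀ hm₀ k₀ hk₀m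
  -- the exponent
  let E : (β →₀ ℕ) → (Fin s → ℂ) → ℂ := fun m z => ∑ b, (m b : ℂ) * (eval z (p b) + c b)
  obtain ⟨A, hA0, hA⟩ : ∃ A : ℝ, 0 ≤ A ∧ ∀ z, ‖E m₀ z‖ ≤ A * (‖z‖ + 1) := by
    choose A hA0 hA using fun b => norm_eval_lin (p b) (hp b)
    refine ⟨∑ b, (m₀ b : ℝ) * (A b + ‖c b‖), Finset.sum_nonneg fun b _ =>
      mul_nonneg (Nat.cast_nonneg _) (add_nonneg (hA0 b) (norm_nonneg _)), fun z => ?_⟩
    refine (norm_sum_le _ _).trans ?_
    rw [Finset.sum_mul]
    refine Finset.sum_le_sum fun b _ => ?_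
    rw [norm_mul, Complex.norm_natCast, mul_assoc]
    refine mul_le_mul_of_nonneg_left ?_ (Nat.cast_nonneg _)
    have h1 := norm_add_le (eval z (p b)) (c b)
    have h2 := hA b z
    have h3 := norm_nonneg (c b)
    have h4 := norm_nonneg z
    nlinarith
  set q₀ : ℂ := coeff k₀ (coeff m₀ G) with hq₀
  have hq₀ne : q₀ ≠ 0 := mem_support_iff.1 hk₀m
  have hcq : 0 < c₀ * ‖q₀‖ := mul_pos hc₀ (norm_pos_iff.2 hq₀ne)
  refine ⟨c₀, A + |Real.log (c₀ * ‖q₀‖)|, hc₀, by positivity, fun z₀ => ?_⟩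
  -- the coefficients at `z₀`
  let a : {x // x ∈ J} → ℂ := fun x =>
    coeff x.1.2 (tr z₀ (coeff x.1.1 G)) * Complex.exp (E x.1.1 z₀)
  obtain ⟨τ, hτ, hτw⟩ := hc a
  refine ⟨τ, hτ, fun w hw => ?_⟩
  -- expansion
  have hexp : ∀ w : Fin s → ℂ, val p c (z₀ + w) G = ∑ j, a j * f j w := by
    intro w
    have h1 : ∑ j, a j * f j w = ∑ x ∈ J, (coeff x.2 (tr z₀ (coeff x.1 G)) *
        Complex.exp (E x.1 z₀)) * ((∏ i, w i ^ (x.2 i)) * Complex.exp (∑ i, Λ x.1 i * w i)) := by
      rw [← Finset.sum_coe_sort J]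
    rw [h1, Finset.sum_product]
    unfold val
    rw [coe_eval₂Hom, eval₂_eq']
    refine Finset.sum_congr rfl fun m hm => ?_
    have h2 : eval (z₀ + w) (coeff m G) =
        ∑ k ∈ Finset.Iic K, coeff k (tr z₀ (coeff m G)) * ∏ i, w i ^ k i := by
      rw [← eval_tr, eval_eq']
      refine Finset.sum_subset ?_ ?_
      · intro k hk
        rw [Finset.mem_Iic]
        obtain ⟨k', hk', hle⟩ := coeff_tr z₀ (coeff m G) k (mem_support_iff.1 hk)
        exact hle.trans (hK m hm k' hk')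
      · intro k _ hk
        rw [notMem_support_iff.1 hk, zero_mul]
    have h3 : ∏ b, Complex.exp (eval (z₀ + w) (p b) + c b) ^ m b =
        Complex.exp (E m z₀) * Complex.exp (∑ i, Λ m i * w i) := by
      rw [← Complex.exp_add]
      have h4 : ∀ b, Complex.exp (eval (z₀ + w) (p b) + c b) ^ m b =
          Complex.exp ((m b : ℂ) * (eval (z₀ + w) (p b) + c b)) := by
        intro b; rw [← Complex.exp_nat_mul]
      simp_rw [h4]
      rw [← Complex.exp_sum]
      congr 1
      simp only [E, Λ, Finset.sum_mul]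
      rw [Finset.sum_comm, ← Finset.sum_add_distrib]
      refine Finset.sum_congr rfl fun b _ => ?_
      rw [eval_lin_add _ (hp b)]
      rw [show (m b : ℂ) * (eval z₀ (p b) + ∑ i, lam (p b) i * w i + c b) =
        (m b : ℂ) * (eval z₀ (p b) + c b) + (m b : ℂ) * ∑ i, lam (p b) i * w i by ring,
        Finset.mul_sum]
      congr 1
      exact Finset.sum_congr rfl fun i _ => by ring
    rw [h2, h3, Finset.sum_mul]
    refine Finset.sum_congr rfl fun k _ => ?_
    ring
  have hw' : w - z₀ ∈ ball (mv M τ) c₀ := by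
    rw [mem_ball, dist_eq_norm] at hw ⊢
    rwa [sub_sub]
  have h1 := hτw (w - z₀) hw'
  rw [← hexp, add_sub_cancel] at h1
  refine le_trans ?_ h1
  have h2 : ‖a ⟨(m₀, k₀), hj₀⟩‖ ≤ ‖a‖ := norm_le_pi_norm a _
  have h3 : ‖a ⟨(m₀, k₀), hj₀⟩‖ = ‖q₀‖ * Real.exp (E m₀ z₀).re := by
    simp only [a]
    rw [norm_mul, Complex.norm_exp, coeff_tr_top z₀ (coeff m₀ G) k₀ hk₀m hk₀max]
  have h4 : Real.exp (-(A * (‖z₀‖ + 1))) ≤ Real.exp (E m₀ z₀).re := by
    apply Real.exp_le_exp.2
    have h5 := Complex.abs_re_le_norm (E m₀ z₀)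
    have h6 := hA z₀
    have h7 := neg_abs_le (E m₀ z₀).re
    linarith
  have h5 : Real.exp (-(|Real.log (c₀ * ‖q₀‖)| * (‖z₀‖ + 1))) ≤ c₀ * ‖q₀‖ := by
    rw [← Real.le_log_iff_exp_le hcq]
    have h6 := neg_abs_le (Real.log (c₀ * ‖q₀‖))
    have h7 := norm_nonneg z₀
    have h8 := abs_nonneg (Real.log (c₀ * ‖q₀‖))
    nlinarith
  calc Real.exp (-((A + |Real.log (c₀ * ‖q₀‖)|) * (‖z₀‖ + 1)))
      = Real.exp (-(A * (‖z₀‖ + 1))) * Real.exp (-(|Real.log (c₀ * ‖q₀‖)| * (‖z₀‖ + 1))) := by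
        rw [← Real.exp_add]; congr 1; ring
    _ ≤ Real.exp (E m₀ z₀).re * (c₀ * ‖q₀‖) :=
        mul_le_mul h4 h5 (Real.exp_nonneg _) (Real.exp_nonneg _)
    _ = c₀ * ‖a ⟨(m₀, k₀), hj₀⟩‖ := by rw [h3]; ring
    _ ≤ c₀ * ‖a‖ := mul_le_mul_of_nonneg_left h2 hc₀.le

end Pool.Agent.K3h87.EX
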